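import Pool.Agent.Work.MP_563097_lc.Verify

namespace Pool.Agent.Results.MP_563097_lc.CoNPComplete

open Pool.Agent.Work.MP_563097_lc Pool.Agent.Work.TMLib

/-- Recognising the class `C` is coNP-complete: the language of the adjacency matrices of the
graphs in `C` is in coNP, and every language in coNP has a polynomial-time many-one reduction to
the membership of graphs, given by their adjacency matrices, in `C`. -/
theorem result :
    InCoNP langC ∧
      ∀ L : Set (List Bool), InCoNP L →
        ∃ f : List Bool → GraphInst, PolyTime id adjMatrix f ∧ ∀ w, w ∈ L ↔ InC (f w).2 := by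
  refine ⟨inCoNP_langC, fun L hL => ?_⟩
  obtain ⟨f, hf, h⟩ := coNPHard_inC L hL
  exact ⟨f, hf, fun w => (h w).2⟩

end Pool.Agent.Results.MP_563097_lc.CoNPComplete
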